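import Pool.Agent.Helper8.NW.Main

/-!
# Words with nonzero image which separate the letters
-/

open CategoryTheory MonoidalCategory Limits BraidedCategory

universe u v w

namespace Pool.Agent.Helper47.EN

open Pool.Agent.TH90.AB Pool.Agent.TH90.Kim Pool.Agent.Helper96.Kim Pool.Agent.Helper96.SP
  Pool.Agent.Helper8.NW

set_option linter.unusedSectionVars false

variable {𝒜 : Type u} [Category.{v} 𝒜] [MonoidalCategory 𝒜] [SymmetricCategory 𝒜]
  [Preadditive 𝒜] [MonoidalPreadditive 𝒜] [Linear ℚ 𝒜] [MonoidalLinear ℚ 𝒜]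
  {K : Type w} [Field K] [CharZero K] {F : Realisation 𝒜 K}

theorem not_inv {M D : 𝒜} {φ : Fam M} {n : ℕ}
    {e : QS (n + 1)} (i : D ⟶ T M (n + 1)) (r : T M (n + 1) ⟶ D) (hir : i ≫ r = 𝟙 D)
    (hri : r ≫ i = rh φ (n + 1) e) (hg : ∃ z : F.V D, z ≠ 0) :
    ¬ F.Inv (rh φ (n + 1) e) := by
  obtain ⟨z, hz⟩ := hg
  intro hI
  apply hz
  have h1 := hI (F.map i z)
  rw [← hri, F.map_comp, ← F.map_comp i r, hir, F.map_id] at h1
  have h2 := congrArg (F.map r) h1
  rwa [← F.map_comp, hir, F.map_id, _root_.map_zero] at h2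

theorem swap_nz [hdual : ∀ X : 𝒜, HasRightDual X] {M : 𝒜} {φ : Fam M} (hφ : PA φ) {n d : ℕ}
    (e : QS n) (b : Module.Basis (Fin d) K (F.V M)) (δ : Fin d → ℚ)
    (hδ : ∀ i, δ i = 1 ∨ δ i = -1) (hb : ∀ i, F.par M (b i) = (δ i : K) • b i)
    (a c : Fin d) (hac : δ a = δ c) (w : Fin n → Fin d)
    (h : F.map (rh φ n e) (wd F n fun k => b (w k)) ≠ 0) :
    F.map (rh φ n e) (wd F n fun k => b (Equiv.swap a c (w k))) ≠ 0 := by
  obtain ⟨B, hB⟩ := wd_basis F b n
  obtain ⟨q, -, h1, -, h3⟩ := qw hφ b δ hδ hb n B hB e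
  have h4 : q w ≠ 0 := by
    intro h0
    apply h
    have h5 := (h1 w).1 h0
    rwa [hB] at h5
  rw [← h3 a c hac w] at h4
  intro h5
  apply h4
  rw [h1, hB]
  exact h5

theorem sepw1 [hdual : ∀ X : 𝒜, HasRightDual X] {M D : 𝒜} {φ : Fam M} (hφ : PA φ) {n : ℕ}
    {e : QS (n + 1)} (i : D ⟶ T M (n + 1)) (r : T M (n + 1) ⟶ D) (hir : i ≫ r = 𝟙 D)
    (hri : r ≫ i = rh φ (n + 1) e) (hg : Good F (n + 1) r) {d : ℕ}
    (b : Module.Basis (Fin d) K (F.V M)) (δ : Fin d → ℚ) (hδ : ∀ i, δ i = 1 ∨ δ i = -1)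
    (hb : ∀ i, F.par M (b i) = (δ i : K) • b i) :
    ∀ a c, a ≠ c → δ a = δ c → ∃ w : Fin (n + 1) → Fin d,
      F.map (rh φ (n + 1) e) (wd F (n + 1) fun k => b (w k)) ≠ 0 ∧ cnt w a ≠ cnt w c := by
  intro a c hac hδac
  have he := not_inv (F := F) i r hir hri hg.1
  by_cases hl : ∃ l, δ l = -δ a
  · obtain ⟨l, hl⟩ := hl
    exact sepA hφ b δ hδ hb n e he a c l hac hδac hl
  · have h1 : ∀ x, δ x = δ a := by
      intro x
      by_contra h
      exact hl ⟨x, opp (hδ a) (hδ x) fun h' => h h'.symm⟩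
    have hpar : ∀ x, F.par M x = ((δ a : ℚ) : K) • x := by
      intro x
      have h2 : F.par M = ((δ a : ℚ) : K) • LinearMap.id := by
        refine b.ext fun y => ?_
        rw [hb, h1, LinearMap.smul_apply, LinearMap.id_apply]
      rw [h2, LinearMap.smul_apply, LinearMap.id_apply]
    obtain ⟨-, hcase⟩ := hg
    rcases hcase with ⟨⟨x, hx0, hx⟩, y, hy0, hy⟩ | h1 | ⟨d', b', w, i₀, j₀, hw, hc⟩
    · exfalso
      have two : (2 : K) ≠ 0 := two_ne_zero
      rcases hδ a with h3 | h3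
      · rw [hpar, h3, Rat.cast_one, one_smul] at hy
        apply hy0
        have h2 : (2 : K) • y = 0 := by
          rw [two_smul]
          nth_rewrite 1 [hy]
          exact neg_add_cancel y
        exact (smul_eq_zero.1 h2).resolve_left two
      · rw [hpar, h3, Rat.cast_neg, Rat.cast_one, neg_one_smul] at hx
        apply hx0
        have h2 : (2 : K) • x = 0 := by
          rw [two_smul]
          nth_rewrite 1 [← hx]
          exact neg_add_cancel x
        exact (smul_eq_zero.1 h2).resolve_left two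
    · rw [Module.finrank_eq_card_basis b, Fintype.card_fin] at h1
      subst h1
      exact absurd (Subsingleton.elim a c) hac
    · have hdd : d' = d := by
        have h1 := Module.finrank_eq_card_basis b
        have h2 := Module.finrank_eq_card_basis b'
        rw [Fintype.card_fin] at h1 h2
        rw [← h1, ← h2]
      subst hdd
      have hw' : F.map (rh φ (n + 1) e) (wd F (n + 1) fun k => b' (w k)) ≠ 0 := by
        intro h0
        apply hw
        rw [← hri, F.map_comp] at h0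
        have h1 := congrArg (F.map r) h0
        rwa [← F.map_comp i r, hir, F.map_id, _root_.map_zero] at h1
      have hw2 := Pool.Agent.Helper32.NW.change hφ b' b (hδ a) hpar (n + 1) e w hw'
      obtain ⟨v, hv, -, hvc⟩ :=
        Pool.Agent.Helper32.NW.pur hφ b (hδ a) hpar (n + 1) e ⟨w, hw2, hc⟩ a c hac
      exact ⟨v, hv, hvc⟩

theorem sepw [hdual : ∀ X : 𝒜, HasRightDual X] {M D : 𝒜} {φ : Fam M} (hφ : PA φ) {n : ℕ}
    {e : QS (n + 1)} (i : D ⟶ T M (n + 1)) (r : T M (n + 1) ⟶ D) (hir : i ≫ r = 𝟙 D)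
    (hri : r ≫ i = rh φ (n + 1) e) (hg : Good F (n + 1) r) {d : ℕ}
    (b : Module.Basis (Fin d) K (F.V M)) (δ : Fin d → ℚ) (hδ : ∀ i, δ i = 1 ∨ δ i = -1)
    (hb : ∀ i, F.par M (b i) = (δ i : K) • b i) :
    (∀ a c, a ≠ c → δ a = δ c → ∃ w : Fin (n + 1) → Fin d,
      F.map (rh φ (n + 1) e) (wd F (n + 1) fun k => b (w k)) ≠ 0 ∧ cnt w a ≠ cnt w c) ∧
    ∀ a c, a ≠ c → ∃ (w w' : Fin (n + 1) → Fin d) (m : ℤ), m ≠ 0 ∧
      F.map (rh φ (n + 1) e) (wd F (n + 1) fun k => b (w k)) ≠ 0 ∧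
      F.map (rh φ (n + 1) e) (wd F (n + 1) fun k => b (w' k)) ≠ 0 ∧
      ∀ l, (cnt w l : ℤ) - cnt w' l = m * ((if l = a then 1 else 0) - if l = c then 1 else 0) := by
  have hs := sepw1 hφ i r hir hri hg b δ hδ hb
  refine ⟨hs, fun a c hac => ?_⟩
  by_cases h : δ a = δ c
  · obtain ⟨w, hw, hc⟩ := hs a c hac h
    refine ⟨w, fun k => Equiv.swap a c (w k), (cnt w a : ℤ) - cnt w c, ?_, hw,
      swap_nz hφ e b δ hδ hb a c h w hw, fun l => ?_⟩
    · intro h0
      apply hc
      omega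
    · have h1 : cnt (fun k => Equiv.swap a c (w k)) l = cnt w (Equiv.swap a c l) := by
        unfold cnt
        congr 1
        ext k
        simp only [Finset.mem_filter, Finset.mem_univ, true_and]
        exact Equiv.swap_apply_eq_iff
      rw [h1]
      by_cases hla : l = a
      · subst hla
        rw [Equiv.swap_apply_left, if_pos rfl, if_neg hac]
        ring
      · by_cases hlc : l = c
        · subst hlc
          rw [Equiv.swap_apply_right, if_neg hla, if_pos rfl]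
          ring
        · rw [Equiv.swap_apply_of_ne_of_ne hla hlc, if_neg hla, if_neg hlc]
          ring
  · have he := not_inv (F := F) i r hir hri hg.1
    obtain ⟨w, w', hw, hw', h1⟩ :=
      Pool.Agent.Helper72.NW.mix hφ b δ hδ hb n e he a c (opp (hδ a) (hδ c) h)
    refine ⟨w', w, 1, one_ne_zero, hw', hw, fun l => ?_⟩
    have h2 := h1 l
    rw [one_mul]
    split_ifs at h2 ⊢ <;> omega

end Pool.Agent.Helper47.EN
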